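import Pool.Agent.N657.QL.Stm2

/-!
# Project QL, LOWG: the sharp lower bound of the depletion, summed over the modes
-/

namespace Pool.Agent.N987.QLLOWG

open Pool.Agent.N657.QR Pool.Agent.N657.QL

/-- One mode. -/
theorem mode (c sig N V a : ℝ) (hV : 0 < V) (ha : 0 < a) (hs : 0 ≤ sig) (hc : c ≤ 1)
    (h : (c * sig - N / V) ^ 2 ≤ sig * (1 / a) * N) :
    0 ≤ N ∧ a * c ^ 2 * sig ≤ N * (1 + 2 * a / V) := by
  rcases hs.eq_or_lt with h0 | h0
  · subst h0
    have h1 : (N / V) ^ 2 ≤ 0 := by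
      have : (c * 0 - N / V) ^ 2 = (N / V) ^ 2 := by ring
      rw [this] at h
      simpa using h
    have h2 : N / V = 0 := by
      have := sq_nonneg (N / V)
      exact pow_eq_zero_iff (two_ne_zero) |>.1 (le_antisymm h1 this)
    have hN : N = 0 := by
      rcases div_eq_zero_iff.1 h2 with h3 | h3
      · exact h3
      · exact absurd h3 hV.ne'
    simp [hN]
  · have hN : 0 ≤ N := by
      by_contra hneg
      push Not at hneg
      have h1 : sig * (1 / a) * N < 0 := mul_neg_of_pos_of_neg (by positivity) hneg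
      nlinarith [sq_nonneg (c * sig - N / V)]
    refine ⟨hN, ?_⟩
    have h1 : a * (c * sig - N / V) ^ 2 ≤ sig * N := by
      have h2 := mul_le_mul_of_nonneg_left h ha.le
      calc _ ≤ a * (sig * (1 / a) * N) := h2
        _ = sig * N := by field_simp
    have h2 : a * (c ^ 2 * sig - 2 * c * (N / V)) ≤ N := by
      have h3 : sig * (a * (c ^ 2 * sig - 2 * c * (N / V))) ≤ sig * N := by
        nlinarith [mul_nonneg ha.le (sq_nonneg (N / V))]
      exact le_of_mul_le_mul_left h3 h0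
    have h4 : a * c * (N / V) ≤ a * (N / V) := by
      have h5 : 0 ≤ a * (N / V) := by positivity
      nlinarith
    have h5 : N * (1 + 2 * a / V) = N + 2 * (a * (N / V)) := by ring
    rw [h5]
    nlinarith

section Modes

variable {d L : ℕ} [NeZero L]

/-- The quadratic form of the correlations. -/
noncomputable def Q (Ψ : ((Fin d → ZMod L) → ℤ) → ℝ) (g : (Fin d → ZMod L) → ℝ) : ℝ :=
  ∑ x, ∑ y, g x * g y * cr x y Ψ

theorem sum_all (hB : S_BAS) (hP : S_PLA) (Ψ : ((Fin d → ZMod L) → ℤ) → ℝ) (hn : nr Ψ = 1) :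
    ∑ k : Fin d → ZMod L, (Q Ψ (ck k) + Q Ψ (sk k)) =
      (Fintype.card (Fin d → ZMod L) : ℝ) ^ 2 := by
  have h1 : ∀ k : Fin d → ZMod L, Q Ψ (ck k) + Q Ψ (sk k) =
      ∑ x, ∑ y, (ck k x * ck k y + sk k x * sk k y) * cr x y Ψ := by
    intro k
    unfold Q
    rw [← Finset.sum_add_distrib]
    refine Finset.sum_congr rfl fun x _ => ?_
    rw [← Finset.sum_add_distrib]
    refine Finset.sum_congr rfl fun y _ => ?_
    ring
  simp_rw [h1]
  rw [Finset.sum_comm]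
  have h2 : ∀ x : Fin d → ZMod L, ∑ k : Fin d → ZMod L, ∑ y,
      (ck k x * ck k y + sk k x * sk k y) * cr x y Ψ = (Fintype.card (Fin d → ZMod L) : ℝ) := by
    intro x
    rw [Finset.sum_comm]
    have h3 : ∀ y : Fin d → ZMod L, ∑ k : Fin d → ZMod L,
        (ck k x * ck k y + sk k x * sk k y) * cr x y Ψ =
          if x = y then (Fintype.card (Fin d → ZMod L) : ℝ) else 0 := by
      intro y
      rw [← Finset.sum_mul, hP.comp d L x y]
      split_ifs with h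
      · subst h
        rw [hB.crself, hn, mul_one]
      · rw [zero_mul]
    simp_rw [h3]
    simp
  simp_rw [h2]
  rw [Finset.sum_const, Finset.card_univ, nsmul_eq_mul]
  ring

theorem zero_mode (hP : S_PLA) (Ψ : ((Fin d → ZMod L) → ℤ) → ℝ) :
    Q Ψ (ck 0) + Q Ψ (sk 0) = ∑ x, ∑ y, cr x y Ψ := by
  have h1 : ∀ x : Fin d → ZMod L, ck (0 : Fin d → ZMod L) x = 1 := fun x => (hP.zero d L x).1
  have h2 : ∀ x : Fin d → ZMod L, sk (0 : Fin d → ZMod L) x = 0 := fun x => (hP.zero d L x).2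
  unfold Q
  simp only [h1, h2]
  simp

theorem sum_ne (hB : S_BAS) (hP : S_PLA) (Ψ : ((Fin d → ZMod L) → ℤ) → ℝ) (hn : nr Ψ = 1) :
    ∑ k ∈ (Finset.univ : Finset (Fin d → ZMod L)).erase 0, (Q Ψ (ck k) + Q Ψ (sk k)) =
      (Fintype.card (Fin d → ZMod L) : ℝ) ^ 2 - ∑ x, ∑ y, cr x y Ψ := by
  have h1 := sum_all hB hP Ψ hn
  have h2 := Finset.add_sum_erase (Finset.univ : Finset (Fin d → ZMod L))
    (fun k => Q Ψ (ck k) + Q Ψ (sk k)) (Finset.mem_univ 0)
  have h3 := zero_mode hP Ψ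
  linarith

theorem card_ge (hd : 2 ≤ d) : (L : ℝ) ^ 2 ≤ (Fintype.card (Fin d → ZMod L) : ℝ) := by
  have h1 : Fintype.card (Fin d → ZMod L) = L ^ d := by
    simp [ZMod.card]
  rw [h1]
  push_cast
  have h2 : (1 : ℝ) ≤ L := by
    exact_mod_cast Nat.one_le_iff_ne_zero.2 (NeZero.ne L)
  exact pow_le_pow_right₀ h2 hd

theorem conn (hCon : S_CON) (γ : ℝ) (hγ : 0 ≤ γ) :
    Conn (wg γ : (Fin d → ZMod L) → (Fin d → ZMod L) → ℝ) := by
  apply hCon.1
  apply hCon.2.1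
  intro x i
  unfold wg nnw
  have h1 : (1 : ℝ) ≤ ∑ j : Fin d, if x + ee i = x + ee j then (1 : ℝ) else 0 := by
    have h2 : (if x + ee i = x + ee i then (1 : ℝ) else 0) ≤
        ∑ j : Fin d, if x + ee i = x + ee j then (1 : ℝ) else 0 :=
      Finset.single_le_sum (f := fun j : Fin d => if x + ee i = x + ee j then (1 : ℝ) else 0)
        (fun j _ => by positivity) (Finset.mem_univ i)
    simpa using h2
  have h3 : 0 ≤ γ / (Fintype.card (Fin d → ZMod L) : ℝ) := by positivity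
  linarith

theorem nnw_nonneg (x y : Fin d → ZMod L) : 0 ≤ nnw 1 x y := by
  unfold nnw
  positivity

/-- The inequality for the sum over the modes. -/
theorem modes (hB : S_BAS) (hU : S_UNCG) (hP : S_PLA) (hd : 2 ≤ d) (U γ : ℝ) (hU0 : 0 < U)
    (hγ : 0 ≤ γ) (Ψ : ((Fin d → ZMod L) → ℤ) → ℝ)
    (hG : IsG (U • (1 : Matrix (Fin d → ZMod L) (Fin d → ZMod L) ℝ)) (wg γ) 0 0 Ψ) (c : ℝ)
    (hc : c = (∑ x, ∑ y, cr x y Ψ) / (Fintype.card (Fin d → ZMod L) : ℝ) ^ 2) :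
    c ≤ 1 ∧ c ^ 2 * (Real.sqrt (U / 2) * ILg d L γ) ≤ (1 - c) * (1 + Real.sqrt U / L) := by
  have hL1 : (1 : ℝ) ≤ L := by
    exact_mod_cast Nat.one_le_iff_ne_zero.2 (NeZero.ne L)
  have hL0 : (0 : ℝ) < L := by linarith
  set V : ℝ := (Fintype.card (Fin d → ZMod L) : ℝ) with hVdef
  have hVL : (L : ℝ) ^ 2 ≤ V := card_ge hd
  have hV : 0 < V := lt_of_lt_of_le (by positivity) hVL
  have hn : nr Ψ = 1 := hG.2.2.1
  have hsum : Summable (fun n => Ψ n ^ 2) := hG.1.1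
  have hcr : ∀ x y, cr x y Ψ ≤ 1 := by
    intro x y
    have h1 := hB.crle x y Ψ hsum
    rw [hn] at h1
    exact (abs_le.1 h1).2
  have hS : (∑ x, ∑ y, cr x y Ψ) = V ^ 2 * c := by
    rw [hc]; field_simp
  have hc1 : c ≤ 1 := by
    rw [hc, div_le_one (by positivity)]
    calc (∑ x, ∑ y, cr x y Ψ) ≤ ∑ x : Fin d → ZMod L, ∑ y : Fin d → ZMod L, (1 : ℝ) :=
          Finset.sum_le_sum fun x _ => Finset.sum_le_sum fun y _ => hcr x y
      _ = V ^ 2 := by
          simp only [Finset.sum_const, Finset.card_univ, nsmul_eq_mul, mul_one, ← hVdef]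
          ring
  refine ⟨hc1, ?_⟩
  -- each mode
  have hk : ∀ k ∈ (Finset.univ : Finset (Fin d → ZMod L)).erase 0,
      c ^ 2 * V * (Real.sqrt (U / 2) * (1 / Real.sqrt (lam k + 2 * γ))) ≤
        (Q Ψ (ck k) + Q Ψ (sk k)) * (1 + Real.sqrt U / L) := by
    intro k hk
    have hk0 : k ≠ 0 := (Finset.mem_erase.1 hk).1
    have hlow := hP.low d L k hk0
    have hl : 0 < lam k := lt_of_lt_of_le (by positivity) hlow
    have hl' : 0 < lam k + 2 * γ := by linarith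
    set a : ℝ := Real.sqrt (U / 2) * (1 / Real.sqrt (lam k + 2 * γ)) with ha
    have hs1 : 0 < Real.sqrt (lam k + 2 * γ) := Real.sqrt_pos.2 hl'
    have hs2 : 0 < Real.sqrt (U / 2) := Real.sqrt_pos.2 (by positivity)
    have ha0 : 0 < a := by positivity
    have hainv : Real.sqrt (2 * (lam k + 2 * γ) / U) = 1 / a := by
      have h1 : 2 * (lam k + 2 * γ) / U = (lam k + 2 * γ) / (U / 2) := by field_simp
      rw [h1, Real.sqrt_div hl'.le, ha]
      field_simp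
    have hsq4 : 4 / (L : ℝ) ≤ Real.sqrt (lam k + 2 * γ) := by
      apply Real.le_sqrt_of_sq_le
      have h1 : (4 / (L : ℝ)) ^ 2 = 16 / (L : ℝ) ^ 2 := by
        rw [div_pow]; norm_num
      rw [h1]; linarith
    have hUh : Real.sqrt (U / 2) ≤ Real.sqrt U := Real.sqrt_le_sqrt (by linarith)
    have haL : a ≤ Real.sqrt U * (L / 4) := by
      have h1 : 1 / Real.sqrt (lam k + 2 * γ) ≤ L / 4 := by
        calc 1 / Real.sqrt (lam k + 2 * γ) ≤ 1 / (4 / (L : ℝ)) :=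
              one_div_le_one_div_of_le (by positivity) hsq4
          _ = L / 4 := by field_simp
      exact mul_le_mul hUh h1 (by positivity) (by positivity)
    have heta : 2 * a / V ≤ Real.sqrt U / L := by
      rw [div_le_div_iff₀ hV hL0]
      have h1 : 2 * a * L ≤ 2 * (Real.sqrt U * (L / 4)) * L := by
        have := mul_le_mul_of_nonneg_right haL hL0.le
        linarith
      have h2 : Real.sqrt U * (L : ℝ) ^ 2 ≤ Real.sqrt U * V :=
        mul_le_mul_of_nonneg_left hVL (Real.sqrt_nonneg U)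
      have h3 : 0 ≤ Real.sqrt U * (L : ℝ) ^ 2 := by positivity
      nlinarith
    have hmode : ∀ g : (Fin d → ZMod L) → ℝ, (∀ x, lap g x = lam k * g x) →
        0 ≤ Q Ψ g ∧ a * c ^ 2 * (∑ x, g x ^ 2) ≤ Q Ψ g * (1 + 2 * a / V) := by
      intro g hg
      have h1 := hU d L U γ (lam k) Ψ g hU0 hγ hl hG hg
      rw [hainv, ← hc] at h1
      exact mode c (∑ x, g x ^ 2) (Q Ψ g) V a hV ha0
        (Finset.sum_nonneg fun x _ => sq_nonneg _) hc1 h1
    obtain ⟨hc0, hcm⟩ := hmode (ck k) (fun x => (hP.lapc d L k x).1)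
    obtain ⟨hs0, hsm⟩ := hmode (sk k) (fun x => (hP.lapc d L k x).2)
    have hnorm := hP.norm d L k
    rw [← hVdef] at hnorm
    calc c ^ 2 * V * a = a * c ^ 2 * ((∑ x, ck k x ^ 2) + ∑ x, sk k x ^ 2) := by
          rw [hnorm]; ring
      _ = a * c ^ 2 * (∑ x, ck k x ^ 2) + a * c ^ 2 * (∑ x, sk k x ^ 2) := by ring
      _ ≤ Q Ψ (ck k) * (1 + 2 * a / V) + Q Ψ (sk k) * (1 + 2 * a / V) := add_le_add hcm hsm
      _ = (Q Ψ (ck k) + Q Ψ (sk k)) * (1 + 2 * a / V) := by ring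
      _ ≤ (Q Ψ (ck k) + Q Ψ (sk k)) * (1 + Real.sqrt U / L) :=
          mul_le_mul_of_nonneg_left (by linarith) (by linarith)
  have hsumk := Finset.sum_le_sum hk
  rw [← Finset.mul_sum, ← Finset.mul_sum, ← Finset.sum_mul, sum_ne hB hP Ψ hn, hS, ← hVdef]
    at hsumk
  have hIL : (∑ k ∈ (Finset.univ : Finset (Fin d → ZMod L)).erase 0,
      1 / Real.sqrt (lam k + 2 * γ)) = V * ILg d L γ := by
    unfold ILg
    rw [← hVdef]
    field_simp
  rw [hIL] at hsumk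
  have h1 : V ^ 2 * (c ^ 2 * (Real.sqrt (U / 2) * ILg d L γ)) ≤
      V ^ 2 * ((1 - c) * (1 + Real.sqrt U / L)) := by
    calc _ = c ^ 2 * V * (Real.sqrt (U / 2) * (V * ILg d L γ)) := by ring
      _ ≤ _ := hsumk
      _ = _ := by ring
  exact le_of_mul_le_mul_left h1 (by positivity)

theorem ILg_le (hP : S_PLA) (γ C : ℝ) (hγ : 0 ≤ γ)
    (h : ∑ k ∈ (Finset.univ : Finset (Fin d → ZMod L)).erase 0, 1 / Real.sqrt (lam k) ≤
      C * (Fintype.card (Fin d → ZMod L) : ℝ)) : ILg d L γ ≤ C ∧ 0 ≤ ILg d L γ := by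
  have hV : 0 < (Fintype.card (Fin d → ZMod L) : ℝ) := by
    exact_mod_cast Fintype.card_pos
  constructor
  · unfold ILg
    rw [div_le_iff₀ hV]
    refine le_trans (Finset.sum_le_sum fun k hk => ?_) h
    have hk0 : k ≠ 0 := (Finset.mem_erase.1 hk).1
    have hL0 : (0 : ℝ) < L := by
      exact_mod_cast Nat.pos_of_ne_zero (NeZero.ne L)
    have hl : 0 < lam k := lt_of_lt_of_le (by positivity) (hP.low d L k hk0)
    exact one_div_le_one_div_of_le (Real.sqrt_pos.2 hl) (Real.sqrt_le_sqrt (by linarith))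
  · unfold ILg
    positivity

end Modes

/-- The final inequality. -/
theorem fin_ineq (c s S C C1 ε Lr : ℝ) (hs : 0 < s) (hs1 : s ≤ 1) (hS0 : 0 ≤ S) (hS : S ≤ s * C1)
    (hC : 0 < C) (hLr : 0 < Lr) (hc : 1 - C * s ≤ c)
    (hL : C / Lr ≤ ε / 2) (hsU : 2 * C * C1 * s ≤ ε / 2)
    (h : c ^ 2 * S ≤ (1 - c) * (1 + s / Lr)) : S - ε * s ≤ 1 - c := by
  have h1 : (1 - 2 * (1 - c)) * S ≤ c ^ 2 * S :=
    mul_le_mul_of_nonneg_right (by nlinarith [sq_nonneg (1 - c)]) hS0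
  have h2 : (1 - c) * S ≤ (C * s) * (s * C1) :=
    mul_le_mul (by linarith) hS hS0 (by positivity)
  have h3 : (1 - c) * (s / Lr) ≤ (C * s) * (s / Lr) :=
    mul_le_mul_of_nonneg_right (by linarith) (by positivity)
  have h4 : (C * s) * (s / Lr) = s * s * (C / Lr) := by ring
  have h5 : s * s * (C / Lr) ≤ s * 1 * (ε / 2) := by
    have h6 : 0 ≤ C / Lr := by positivity
    have h7 : s * s ≤ s * 1 := mul_le_mul_of_nonneg_left hs1 hs.le
    calc s * s * (C / Lr) ≤ s * 1 * (C / Lr) := mul_le_mul_of_nonneg_right h7 h6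
      _ ≤ s * 1 * (ε / 2) := mul_le_mul_of_nonneg_left hL (by positivity)
  have h6 : 2 * ((C * s) * (s * C1)) ≤ s * (ε / 2) := by
    have h7 := mul_le_mul_of_nonneg_left hsU hs.le
    calc 2 * ((C * s) * (s * C1)) = s * (2 * C * C1 * s) := by ring
      _ ≤ s * (ε / 2) := h7
  nlinarith

/-- The sharp lower bound of the depletion. -/
theorem main (hB : S_BAS) (hU : S_UNCG) (hN : Pool.Agent.N657.QR.S_NEU) (hX : S_EX)
    (hCmp : S_CMP) (hCon : S_CON) (hP : S_PLA) (hL : Pool.Agent.N657.QR.S_LAT) : S_LOWG := by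
  intro d hd ε γ hε hγ
  obtain ⟨C, hC, hNeu⟩ := hN d hd
  obtain ⟨C1, hC1, hLat⟩ := hL d hd
  set s0 : ℝ := min 1 (ε / (4 * C * C1)) with hs0
  have hs0pos : 0 < s0 := lt_min one_pos (by positivity)
  refine ⟨s0 ^ 2, by positivity, ?_⟩
  intro U hU0 hUle
  refine ⟨Nat.ceil (2 * C / ε), ?_⟩
  intro L _ hLL hev Ψ hG
  have hL0 : (0 : ℝ) < L := by
    exact_mod_cast Nat.pos_of_ne_zero (NeZero.ne L)
  have hs : 0 < Real.sqrt U := Real.sqrt_pos.2 hU0
  have hsle : Real.sqrt U ≤ s0 := by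
    rw [show s0 = Real.sqrt (s0 ^ 2) from (Real.sqrt_sq hs0pos.le).symm]
    exact Real.sqrt_le_sqrt hUle
  have hs1 : Real.sqrt U ≤ 1 := hsle.trans (min_le_left _ _)
  have hs2 : Real.sqrt U ≤ ε / (4 * C * C1) := hsle.trans (min_le_right _ _)
  have hsU : 2 * C * C1 * Real.sqrt U ≤ ε / 2 := by
    rw [le_div_iff₀ (by positivity)] at hs2
    linarith
  set V : ℝ := (Fintype.card (Fin d → ZMod L) : ℝ) with hVdef
  have hV : 0 < V := by
    rw [hVdef]; exact_mod_cast Fintype.card_pos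
  set c : ℝ := (∑ x, ∑ y, cr x y Ψ) / V ^ 2 with hc
  obtain ⟨hc1, hmain⟩ := modes hB hU hP hd U γ hU0 hγ Ψ hG c hc
  have hLat' := hLat L
  obtain ⟨hI1, hI0⟩ := ILg_le (d := d) (L := L) hP γ C1 hγ hLat'
  -- comparison with the nearest neighbour ground state
  have hPD : (U • (1 : Matrix (Fin d → ZMod L) (Fin d → ZMod L) ℝ)).PosDef :=
    Matrix.PosDef.one.smul hU0
  obtain ⟨Ψ0, hΨ0⟩ := hX (U • (1 : Matrix (Fin d → ZMod L) (Fin d → ZMod L) ℝ)) (nnw 1) 0 0 hPD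
    (fun x y => nnw_nonneg x y)
  have hcomp : ∀ x y, cr x y Ψ0 ≤ cr x y Ψ := by
    apply hCmp (U • (1 : Matrix (Fin d → ZMod L) (Fin d → ZMod L) ℝ))
      (U • (1 : Matrix (Fin d → ZMod L) (Fin d → ZMod L) ℝ)) (wg γ) (nnw 1) 0 0 Ψ Ψ0 hPD
    · rw [sub_self]; exact Matrix.PosSemidef.zero
    · exact fun x y => nnw_nonneg x y
    · intro x y
      unfold wg
      have : 0 ≤ γ / (Fintype.card (Fin d → ZMod L) : ℝ) := by positivity
      linarith
    · exact conn hCon γ hγ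
    · exact hG
    · exact hΨ0
  have hneu := hNeu L U 1 Ψ0 hev hU0 one_pos hΨ0
  rw [div_one, ← hVdef] at hneu
  have hclow : 1 - C * Real.sqrt U ≤ c := by
    rw [hc, le_div_iff₀ (by positivity)]
    refine hneu.trans ?_
    exact Finset.sum_le_sum fun x _ => Finset.sum_le_sum fun y _ => hcomp x y
  have hCL : C / (L : ℝ) ≤ ε / 2 := by
    have h1 : 2 * C / ε ≤ (L : ℝ) := by
      calc 2 * C / ε ≤ (Nat.ceil (2 * C / ε) : ℝ) := Nat.le_ceil _
        _ ≤ (L : ℝ) := by exact_mod_cast hLL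
    rw [div_le_iff₀ hε] at h1
    rw [div_le_div_iff₀ hL0 (by positivity)]
    linarith
  have hsq2 : Real.sqrt (U / 2) = Real.sqrt U / Real.sqrt 2 := Real.sqrt_div hU0.le 2
  have h2pos : 0 < Real.sqrt 2 := Real.sqrt_pos.2 (by norm_num)
  have h21 : 1 ≤ Real.sqrt 2 := by
    rw [show (1 : ℝ) = Real.sqrt 1 from Real.sqrt_one.symm]
    exact Real.sqrt_le_sqrt (by norm_num)
  have hS : Real.sqrt (U / 2) * ILg d L γ ≤ Real.sqrt U * C1 :=
    mul_le_mul (Real.sqrt_le_sqrt (by linarith)) hI1 hI0 hs.le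
  have hfin := fin_ineq c (Real.sqrt U) (Real.sqrt (U / 2) * ILg d L γ) C C1 ε L hs hs1
    (by positivity) hS hC hL0 hclow hCL hsU hmain
  calc (ILg d L γ / Real.sqrt 2 - ε) * Real.sqrt U
      = Real.sqrt (U / 2) * ILg d L γ - ε * Real.sqrt U := by
        rw [hsq2]; ring
    _ ≤ 1 - c := hfin

end Pool.Agent.N987.QLLOWG
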